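import Pool.Agent.Helper501.EPO.Defs
import Pool.Agent.Helper501.EPO.Main

namespace Pool.Agent.Results.MP_9a9528_al.EngelOrderable

open Pool.Agent.Helper501.EPO

/-- Negative answer to Q1 and Q2: there is an orderable group with two Engel elements whose
product is not an Engel element; and there is an orderable, hence right orderable, group whose
Engel elements do not form a subgroup. -/
theorem result :
    (∃ (G : Type) (_ : Group G), Orderable G ∧
      ∃ g h : G, IsEngelElement g ∧ IsEngelElement h ∧ ¬ IsEngelElement (g * h)) ∧
    (∃ (G : Type) (_ : Group G), Orderable G ∧ RightOrderable G ∧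
      ¬ ∃ H : Subgroup G, ∀ g : G, g ∈ H ↔ IsEngelElement g) :=
  Pool.Agent.Helper501.EPO.main

end Pool.Agent.Results.MP_9a9528_al.EngelOrderable
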